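import Pool.Agent.H216R2.QZ.Z1
import Pool.Agent.H336R2.HD.A3

/-! The determinant inequality: zone rows and line rows (abstract form). -/

open Polynomial

namespace Pool.Agent.H216R2.QZ

noncomputable section

namespace Z2

/-- the zone polynomial -/
def ZZ (xs : ℕ → ℚ) (T : ℕ) : ℚ[X] := ∏ l ∈ Finset.range T, (X - C (xs l))

/-- the zone polynomial without the factor `l` -/
def ZE (xs : ℕ → ℚ) (T l : ℕ) : ℚ[X] := ∏ l' ∈ (Finset.range T).erase l, (X - C (xs l'))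

lemma ZZ_spec (xs : ℕ → ℚ) (T : ℕ) : (ZZ xs T).Monic ∧ (ZZ xs T).natDegree = T := by
  unfold ZZ
  refine ⟨monic_prod_of_monic _ _ fun i _ => monic_X_sub_C _, ?_⟩
  rw [natDegree_prod_of_monic _ _ fun i _ => monic_X_sub_C _]
  simp

lemma ZE_spec (xs : ℕ → ℚ) (T : ℕ) {l : ℕ} (hl : l < T) :
    (ZE xs T l).Monic ∧ (ZE xs T l).natDegree = T - 1 := by
  unfold ZE
  refine ⟨monic_prod_of_monic _ _ fun i _ => monic_X_sub_C _, ?_⟩
  rw [natDegree_prod_of_monic _ _ fun i _ => monic_X_sub_C _]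
  simp [Finset.card_erase_of_mem (Finset.mem_range.2 hl)]

lemma ZZ_eq (xs : ℕ → ℚ) (T : ℕ) {l : ℕ} (hl : l < T) : ZZ xs T = (X - C (xs l)) * ZE xs T l := by
  unfold ZZ ZE
  exact (Finset.mul_prod_erase (Finset.range T) (fun l => (X - C (xs l) : ℚ[X])) (Finset.mem_range.2 hl)).symm

lemma ZZ_eval (xs : ℕ → ℚ) (T : ℕ) {t : ℕ} (ht : t < T) : (ZZ xs T).eval (xs t) = 0 := by
  rw [ZZ_eq xs T ht]; simp

lemma ZE_eval (xs : ℕ → ℚ) (T : ℕ) {l t : ℕ} (ht : t < T) (h : t ≠ l) : (ZE xs T l).eval (xs t) = 0 := by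
  unfold ZE
  rw [eval_prod]
  apply Finset.prod_eq_zero (Finset.mem_erase.2 ⟨h, Finset.mem_range.2 ht⟩)
  simp

variable (xs ws : ℕ → ℚ) (T : ℕ) (G : ℕ → ℚ[X]) (al : ℕ → ℝ) (CB BL : ℝ)

/-- the rows -/
def Pr (i : ℕ) : ℚ[X] := if i < T then ZE xs T i else ZZ xs T * G (i - T)

/-- diagonal entry of the zone row `l` -/
def Dz (l : ℕ) : ℝ := |((ws l : ℚ) : ℝ)| * (((ZE xs T l).eval (xs l) : ℚ) : ℝ) ^ 2

/-- bounds for the rows on the line -/
def br (i : ℕ) : ℝ := if i < T then 64 * BL else Real.exp (al (i - T))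

/-- the bounds for the determinant -/
def Ar (i : ℕ) : ℝ := if i < T then Dz xs ws T i + CB * (64 * BL) else CB * Real.exp (al (i - T))

lemma Dz_nonneg (i : ℕ) : 0 ≤ Dz xs ws T i := by unfold Dz; positivity

variable {CB BL}

lemma br_nonneg (hBL : 0 ≤ BL) (i : ℕ) : 0 ≤ br T al BL i := by
  unfold br; split_ifs <;> positivity

lemma br_le_Ar (i : ℕ) : CB * br T al BL i ≤ Ar xs ws T al CB BL i := by
  unfold br Ar
  split_ifs
  · have := Dz_nonneg xs ws T i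
    linarith
  · exact le_refl _

lemma Ar_nonneg (hCB : 0 ≤ CB) (hBL : 0 ≤ BL) (i : ℕ) : 0 ≤ Ar xs ws T al CB BL i :=
  (mul_nonneg hCB (br_nonneg T al hBL i)).trans (br_le_Ar xs ws T al i)

lemma Pr_deg {m : ℕ} (hT : T ≤ m) (hG : ∀ j, T + j < m → (G j).Monic ∧ (G j).natDegree = j)
    {i : ℕ} (hi : i < m) : (Pr xs T G i).natDegree ≤ m - 1 := by
  unfold Pr
  split_ifs with h
  · rw [(ZE_spec xs T h).2]
    omega
  · have h1 := hG (i - T) (by omega)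
    rw [(ZZ_spec xs T).1.natDegree_mul h1.1, (ZZ_spec xs T).2, h1.2]
    omega

variable (z : ℝ → ℂ) (wt : ℝ → ℝ)

lemma Pr_bound {m : ℕ} (hwt : ∀ y, 0 ≤ wt y) (hd : ∀ l < T, ∀ y, 1 / 8 ≤ ‖z y - ((xs l : ℚ) : ℂ)‖)
    (hal : ∀ j, T + j < m → ∀ y : ℝ, wt y * ‖aeval (z y) (ZZ xs T * G j)‖ ^ 2 ≤ Real.exp (al j))
    (hZ : ∀ y : ℝ, wt y * ‖aeval (z y) (ZZ xs T)‖ ^ 2 ≤ BL)
    {i : ℕ} (hi : i < m) (y : ℝ) :
    wt y * ‖aeval (z y) (Pr xs T G i)‖ ^ 2 ≤ br T al BL i := by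
  unfold Pr br
  split_ifs with h
  · have h1 := hZ y
    rw [ZZ_eq xs T h, map_mul, norm_mul, mul_pow] at h1
    have h2 := hd i h y
    have h2' : aeval (z y) (X - C (xs i) : ℚ[X]) = z y - ((xs i : ℚ) : ℂ) := by
      simp only [map_sub, aeval_X, aeval_C, eq_ratCast]
    rw [← h2'] at h2
    set A := ‖aeval (z y) (X - C (xs i) : ℚ[X])‖ with hA
    set B := ‖aeval (z y) (ZE xs T i)‖ with hB
    have hw := hwt y
    have h3 : 1 / 64 ≤ A ^ 2 := by nlinarith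
    have h4 : 0 ≤ wt y * B ^ 2 := by positivity
    nlinarith
  · exact hal _ (by omega) y

/-- the zone sums -/
lemma zone_sum (i j : ℕ) :
    |((∑ t ∈ Finset.range T, ws t * (Pr xs T G i * Pr xs T G j).eval (xs t) : ℚ) : ℝ)| =
      if i = j ∧ i < T then Dz xs ws T i else 0 := by
  have hz : ∀ i t, t < T → ¬ (i < T ∧ t = i) → (Pr xs T G i).eval (xs t) = 0 := by
    intro i t ht h
    unfold Pr
    split_ifs with h1
    · rw [ZE_eval xs T ht (by intro h2; exact h ⟨h1, h2⟩)]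
    · rw [eval_mul, ZZ_eval xs T ht, zero_mul]
  split_ifs with h
  · obtain ⟨rfl, h2⟩ := h
    rw [Finset.sum_eq_single i]
    · unfold Dz
      rw [eval_mul]
      unfold Pr
      rw [if_pos h2]
      push_cast
      rw [abs_mul, ← pow_two, abs_pow, sq_abs]
    · intro t ht hti
      rw [eval_mul, hz i t (Finset.mem_range.1 ht) (fun h => hti h.2), zero_mul, mul_zero]
    · intro h3
      exact absurd (Finset.mem_range.2 h2) h3
  · rw [Finset.sum_eq_zero]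
    · simp
    · intro t ht
      rw [eval_mul]
      rw [Finset.mem_range] at ht
      by_cases h1 : i < T ∧ t = i
      · rw [hz j t ht (fun h3 => h ⟨h1.2.symm.trans h3.2, h1.1⟩), mul_zero, mul_zero]
      · rw [hz i t ht h1, zero_mul, mul_zero]

lemma entry {m : ℕ} (hT : T ≤ m) (NL : ℚ[X] →ₗ[ℚ] ℚ) (hCB : 0 ≤ CB) (hBL : 0 ≤ BL)
    (hB2 : ∀ Q : ℚ[X], Q.natDegree ≤ 2 * (m - 1) → ∀ B : ℝ,
      (∀ y : ℝ, wt y * ‖aeval (z y) Q‖ ≤ B) →
      |((NL Q - ∑ t ∈ Finset.range T, ws t * Q.eval (xs t) : ℚ) : ℝ)| ≤ CB * B)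
    (hG : ∀ j, T + j < m → (G j).Monic ∧ (G j).natDegree = j)
    (hwt : ∀ y, 0 ≤ wt y) (hd : ∀ l < T, ∀ y, 1 / 8 ≤ ‖z y - ((xs l : ℚ) : ℂ)‖)
    (hal : ∀ j, T + j < m → ∀ y : ℝ, wt y * ‖aeval (z y) (ZZ xs T * G j)‖ ^ 2 ≤ Real.exp (al j))
    (hZ : ∀ y : ℝ, wt y * ‖aeval (z y) (ZZ xs T)‖ ^ 2 ≤ BL)
    {i j : ℕ} (hi : i < m) (hj : j < m) :
    |((NL (Pr xs T G i * Pr xs T G j) : ℚ) : ℝ)| ^ 2 ≤ Ar xs ws T al CB BL i * Ar xs ws T al CB BL j := by
  have hbi := br_nonneg T al hBL i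
  have hbj := br_nonneg T al hBL j
  set B := Real.sqrt (br T al BL i * br T al BL j) with hB
  have hB0 : 0 ≤ B := Real.sqrt_nonneg _
  have hBsq : B ^ 2 = br T al BL i * br T al BL j := Real.sq_sqrt (mul_nonneg hbi hbj)
  have key : |((NL (Pr xs T G i * Pr xs T G j) -
      ∑ t ∈ Finset.range T, ws t * (Pr xs T G i * Pr xs T G j).eval (xs t) : ℚ) : ℝ)| ≤ CB * B := by
    apply hB2
    · have h1 := Pr_deg xs T G hT hG hi
      have h2 := Pr_deg xs T G hT hG hj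
      have h3 := natDegree_mul_le (p := Pr xs T G i) (q := Pr xs T G j)
      omega
    · intro y
      rw [map_mul, norm_mul]
      have p1 := Pr_bound xs T G al z wt hwt hd hal hZ hi y
      have p2 := Pr_bound xs T G al z wt hwt hd hal hZ hj y
      have hw := hwt y
      apply le_of_pow_le_pow_left₀ two_ne_zero hB0
      rw [hBsq]
      calc (wt y * (‖aeval (z y) (Pr xs T G i)‖ * ‖aeval (z y) (Pr xs T G j)‖)) ^ 2
          = (wt y * ‖aeval (z y) (Pr xs T G i)‖ ^ 2) *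
            (wt y * ‖aeval (z y) (Pr xs T G j)‖ ^ 2) := by ring
        _ ≤ _ := mul_le_mul p1 p2 (by positivity) hbi
  have hzs := zone_sum xs ws T G i j
  set x : ℝ := ((NL (Pr xs T G i * Pr xs T G j) : ℚ) : ℝ) with hx
  set zz : ℝ := ((∑ t ∈ Finset.range T, ws t *
    (Pr xs T G i * Pr xs T G j).eval (xs t) : ℚ) : ℝ) with hz
  have key' : |x - zz| ≤ CB * B := by
    rw [hx, hz, ← Rat.cast_sub]
    exact key
  have hxz : |x| ≤ |x - zz| + |zz| := by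
    have := abs_add_le (x - zz) zz
    rwa [sub_add_cancel] at this
  have hAi := br_le_Ar xs ws T al (CB := CB) (BL := BL) i
  have hAj := br_le_Ar xs ws T al (CB := CB) (BL := BL) j
  by_cases h : i = j ∧ i < T
  · rw [if_pos h] at hzs
    obtain ⟨rfl, h2⟩ := h
    have hB' : B = br T al BL i := by
      rw [hB]
      exact Real.sqrt_mul_self hbi
    have h3 : |x| ≤ Ar xs ws T al CB BL i := by
      rw [hB'] at key'
      unfold Ar
      unfold br at key'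
      rw [if_pos h2] at key' ⊢
      linarith
    have h4 := pow_le_pow_left₀ (abs_nonneg x) h3 2
    rw [pow_two (Ar xs ws T al CB BL i)] at h4
    exact h4
  · rw [if_neg h] at hzs
    have h3 : |x| ≤ CB * B := by linarith
    calc |x| ^ 2 ≤ (CB * B) ^ 2 := pow_le_pow_left₀ (abs_nonneg x) h3 2
      _ = (CB * br T al BL i) * (CB * br T al BL j) := by rw [mul_pow, hBsq]; ring
      _ ≤ _ := mul_le_mul hAi hAj (mul_nonneg hCB hbj) ((mul_nonneg hCB hbi).trans hAi)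

end Z2

open Z2

/-- the determinant inequality -/
theorem Z2_bound (m T : ℕ) (hT : T ≤ m) (xs ws : ℕ → ℚ) (hxs : ∀ i < T, ∀ j < T, i ≠ j → xs i ≠ xs j)
    (NL : ℚ[X] →ₗ[ℚ] ℚ) (z : ℝ → ℂ) (wt : ℝ → ℝ) (CB BL : ℝ) (hCB : 0 ≤ CB) (hBL : 0 ≤ BL)
    (hB2 : ∀ Q : ℚ[X], Q.natDegree ≤ 2 * (m - 1) → ∀ B : ℝ,
      (∀ y : ℝ, wt y * ‖aeval (z y) Q‖ ≤ B) →
      |((NL Q - ∑ t ∈ Finset.range T, ws t * Q.eval (xs t) : ℚ) : ℝ)| ≤ CB * B)
    (G : ℕ → ℚ[X]) (al : ℕ → ℝ)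
    (hG : ∀ j, T + j < m → (G j).Monic ∧ (G j).natDegree = j)
    (hwt : ∀ y, 0 ≤ wt y) (hd : ∀ l < T, ∀ y, 1 / 8 ≤ ‖z y - ((xs l : ℚ) : ℂ)‖)
    (hal : ∀ j, T + j < m → ∀ y : ℝ, wt y * ‖aeval (z y) (ZZ xs T * G j)‖ ^ 2 ≤ Real.exp (al j))
    (hZ : ∀ y : ℝ, wt y * ‖aeval (z y) (ZZ xs T)‖ ^ 2 ≤ BL) :
    |(((Matrix.of fun i j : Fin m => NL (X ^ (i.1 + j.1))).det : ℚ) : ℝ)| *
        |((∏ l ∈ Finset.range T, (ZE xs T l).eval (xs l) : ℚ) : ℝ)| ≤
      (m.factorial : ℝ) * (∏ l ∈ Finset.range T, (Dz xs ws T l + CB * (64 * BL))) *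
        ∏ j ∈ Finset.range (m - T), (CB * Real.exp (al j)) := by
  have h7 := Z1_gram_zone NL m T xs hxs hT G hG (Pr xs T G)
    (fun i hi => by unfold Pr; rw [if_pos hi]; rfl)
    (fun i h1 h2 => by unfold Pr; rw [if_neg (by omega)]; rfl)
  have hVD : ∏ i ∈ Finset.range T, ∏ l ∈ (Finset.range T).erase i, (xs i - xs l) =
      ∏ l ∈ Finset.range T, (ZE xs T l).eval (xs l) := by
    unfold ZE
    apply Finset.prod_congr rfl
    intro i _
    rw [eval_prod]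
    simp
  rw [hVD] at h7
  have hdet : |(((Matrix.of fun i j : Fin m => NL (X ^ (i.1 + j.1))).det : ℚ) : ℝ)| *
        |((∏ l ∈ Finset.range T, (ZE xs T l).eval (xs l) : ℚ) : ℝ)| =
      |(Matrix.of fun i j : Fin m => ((NL (Pr xs T G i * Pr xs T G j) : ℚ) : ℝ)).det| := by
    have h8 : ((|(Matrix.of fun i j : Fin m => NL (Pr xs T G i * Pr xs T G j)).det| : ℚ) : ℝ) =
        ((|(Matrix.of fun i j : Fin m => NL (X ^ (i.1 + j.1))).det| *
          |∏ l ∈ Finset.range T, (ZE xs T l).eval (xs l)| : ℚ) : ℝ) := by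
      rw [h7]
    rw [Rat.cast_mul, Rat.cast_abs, Rat.cast_abs, Rat.cast_abs] at h8
    rw [← h8]
    congr 1
    have := RingHom.map_det (Rat.castHom ℝ)
      (Matrix.of fun i j : Fin m => NL (Pr xs T G i * Pr xs T G j))
    simp only [Rat.coe_castHom] at this
    rw [this]
    congr 1
  rw [hdet]
  have hA4 := Pool.Agent.H336R2.HD.A4_abs_det m
    (Matrix.of fun i j : Fin m => ((NL (Pr xs T G i * Pr xs T G j) : ℚ) : ℝ))
    (Ar xs ws T al CB BL) (fun i => Ar_nonneg xs ws T al hCB hBL i) (by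
      intro i j
      simp only [Matrix.of_apply]
      exact entry xs ws T G al z wt hT NL hCB hBL hB2 hG hwt hd hal hZ i.2 j.2)
  refine hA4.trans (le_of_eq ?_)
  have e : m = T + (m - T) := by omega
  rw [mul_assoc]
  congr 1
  conv_lhs => rw [e]
  rw [Finset.prod_range_add]
  congr 1
  · apply Finset.prod_congr rfl
    intro i hi
    unfold Ar
    rw [if_pos (Finset.mem_range.1 hi)]
  · apply Finset.prod_congr rfl
    intro i _
    unfold Ar
    rw [if_neg (by omega), Nat.add_sub_cancel_left]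

end

end Pool.Agent.H216R2.QZ
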