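import Pool.Agent.H216R2.QZ.Z2
import Pool.Agent.H216R2.BB.G5e
import Pool.Agent.H216R2.BB.G5s
import Pool.Agent.H216R2.BB.G5pre

/-! The zone: products over the quarter points `l + σ/4`, `l < 2n`. -/

open Polynomial Filter Topology

namespace Pool.Agent.H216R2.QZ

noncomputable section

open Pool.Agent.H216R2.BB (G5_S G5_log_fact G5_reflect G5_shift G5_super SS G5e_prod)

/-- the zone points -/
def xq (σ l : ℕ) : ℚ := (l : ℚ) + (σ : ℚ) / 4

/-- `U/P²` at the zone points -/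
def wq (n σ l : ℕ) : ℚ :=
  (∏ i ∈ Finset.range (2 * n), (xq σ l - i)) / (∏ k ∈ Finset.range (8 * n), (xq σ l + (k + 1))) ^ 2

/-- `U` at a zone point, split -/
lemma U_split (n : ℕ) (a : ℚ) (ha0 : 0 < a) (ha1 : a < 1) (l : ℕ) (hl : l < 2 * n) :
    |∏ i ∈ Finset.range (2 * n), ((l : ℚ) + a - i)| =
      (∏ i ∈ Finset.range (l + 1), ((i : ℚ) + a)) * ∏ i ∈ Finset.range (2 * n - 1 - l), ((i : ℚ) + 1 - a) := by
  have e : 2 * n = (l + 1) + (2 * n - 1 - l) := by omega
  conv_lhs => rw [e, Finset.prod_range_add, abs_mul]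
  congr 1
  · rw [← Finset.prod_range_reflect, Finset.abs_prod]
    apply Finset.prod_congr rfl
    intro i hi
    rw [Finset.mem_range] at hi
    have h1 : ((l + 1 - 1 - i : ℕ) : ℚ) = (l : ℚ) - i := by
      rw [show l + 1 - 1 - i = l - i by omega, Nat.cast_sub (by omega)]
    rw [h1]
    rw [show (l : ℚ) + a - (l - i) = i + a by ring]
    exact abs_of_nonneg (by positivity)
  · rw [Finset.abs_prod]
    apply Finset.prod_congr rfl
    intro i _
    push_cast
    rw [show (l : ℚ) + a - (l + 1 + i) = -(i + 1 - a) by ring, abs_neg]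
    apply abs_of_nonneg
    have : (0 : ℚ) ≤ i := by positivity
    linarith

lemma prodA_le (a : ℚ) (ha0 : 0 < a) (ha1 : a < 1) (l : ℕ) :
    ∏ i ∈ Finset.range (l + 1), ((i : ℚ) + a) ≤ ((l + 1).factorial : ℚ) := by
  rw [← Finset.prod_range_add_one_eq_factorial]
  push_cast
  apply Finset.prod_le_prod
  · intro i _; positivity
  · intro i _; linarith

lemma prodA_ge (a : ℚ) (ha0 : 0 < a) (l : ℕ) :
    a * (l.factorial : ℚ) ≤ ∏ i ∈ Finset.range (l + 1), ((i : ℚ) + a) := by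
  rw [Finset.prod_range_succ', ← Finset.prod_range_add_one_eq_factorial]
  push_cast
  rw [mul_comm, zero_add]
  apply mul_le_mul_of_nonneg_right _ ha0.le
  apply Finset.prod_le_prod
  · intro i _; positivity
  · intro i _; linarith

lemma prodB_le (a : ℚ) (ha0 : 0 < a) (ha1 : a < 1) (r : ℕ) :
    ∏ i ∈ Finset.range r, ((i : ℚ) + 1 - a) ≤ (r.factorial : ℚ) := by
  rw [← Finset.prod_range_add_one_eq_factorial]
  push_cast
  apply Finset.prod_le_prod
  · intro i _
    have : (0 : ℚ) ≤ i := by positivity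
    linarith
  · intro i _; linarith

lemma prodB_ge (a : ℚ) (ha0 : 0 < a) (ha1 : a < 1) (r : ℕ) :
    (1 - a) * (r.factorial : ℚ) ≤ (r + 1) * ∏ i ∈ Finset.range r, ((i : ℚ) + 1 - a) := by
  cases r with
  | zero => simp; linarith
  | succ r =>
    have key : (1 - a) * (r.factorial : ℚ) ≤ ∏ i ∈ Finset.range (r + 1), ((i : ℚ) + 1 - a) := by
      rw [Finset.prod_range_succ', ← Finset.prod_range_add_one_eq_factorial]
      push_cast
      rw [mul_comm, zero_add]
      apply mul_le_mul_of_nonneg_right _ (by linarith)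
      apply Finset.prod_le_prod
      · intro i _; positivity
      · intro i _; linarith
    have hP : 0 ≤ ∏ i ∈ Finset.range (r + 1), ((i : ℚ) + 1 - a) := by
      apply Finset.prod_nonneg
      intro i _
      have : (0 : ℚ) ≤ i := by positivity
      linarith
    set P := ∏ i ∈ Finset.range (r + 1), ((i : ℚ) + 1 - a)
    have e : (((r + 1).factorial : ℕ) : ℚ) = ((r : ℚ) + 1) * (r.factorial : ℚ) := by
      rw [Nat.factorial_succ]; push_cast; ring
    rw [e]
    push_cast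
    have hr : (0 : ℚ) ≤ r := by positivity
    calc (1 - a) * (((r : ℚ) + 1) * (r.factorial : ℚ)) = ((r : ℚ) + 1) * ((1 - a) * (r.factorial : ℚ)) := by ring
      _ ≤ ((r : ℚ) + 1) * P := by gcongr
      _ ≤ (r + 1 + 1) * P := by
        apply mul_le_mul_of_nonneg_right _ hP
        linarith

lemma prodP_ge (a : ℚ) (ha0 : 0 < a) (l m : ℕ) :
    ((l + m).factorial : ℚ) ≤ (l.factorial : ℚ) * ∏ k ∈ Finset.range m, ((l : ℚ) + a + (k + 1)) := by
  induction m with
  | zero => simp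
  | succ m ih =>
    rw [Finset.prod_range_succ, ← add_assoc, Nat.factorial_succ]
    push_cast
    have hP : 0 ≤ ∏ k ∈ Finset.range m, ((l : ℚ) + a + (k + 1)) := by
      apply Finset.prod_nonneg
      intro i _
      positivity
    calc ((l : ℚ) + m + 1) * ((l + m).factorial : ℚ) ≤ ((l : ℚ) + a + (m + 1)) *
          ((l.factorial : ℚ) * ∏ k ∈ Finset.range m, ((l : ℚ) + a + (k + 1))) := by
          apply mul_le_mul _ ih (by positivity) (by positivity)
          linarith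
      _ = _ := by ring

lemma prodP_le (a : ℚ) (ha0 : 0 < a) (ha1 : a < 1) (l m : ℕ) :
    ((l + 1).factorial : ℚ) * ∏ k ∈ Finset.range m, ((l : ℚ) + a + (k + 1)) ≤ ((l + 1 + m).factorial : ℚ) := by
  induction m with
  | zero => simp
  | succ m ih =>
    have e : (((l + 1 + (m + 1)).factorial : ℕ) : ℚ) = ((l + 1 + m).factorial : ℚ) * ((l : ℚ) + 1 + m + 1) := by
      rw [← add_assoc, Nat.factorial_succ]; push_cast; ring
    rw [Finset.prod_range_succ, e]
    have hP : 0 ≤ ∏ k ∈ Finset.range m, ((l : ℚ) + a + (k + 1)) := by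
      apply Finset.prod_nonneg
      intro i _
      positivity
    calc ((l + 1).factorial : ℚ) * ((∏ k ∈ Finset.range m, ((l : ℚ) + a + (k + 1))) * ((l : ℚ) + a + (m + 1)))
        = (((l + 1).factorial : ℚ) * (∏ k ∈ Finset.range m, ((l : ℚ) + a + (k + 1)))) * ((l : ℚ) + a + (m + 1)) := by
          ring
      _ ≤ ((l + 1 + m).factorial : ℚ) * ((l : ℚ) + 1 + m + 1) := by
        apply mul_le_mul ih _ (by positivity) (by positivity)
        linarith

lemma xq_a {σ : ℕ} (hσ : σ = 1 ∨ σ = 3) : (0 : ℚ) < (σ : ℚ) / 4 ∧ (σ : ℚ) / 4 < 1 ∧ 1 / 4 ≤ (σ : ℚ) / 4 ∧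
    1 / 4 ≤ 1 - (σ : ℚ) / 4 := by
  rcases hσ with rfl | rfl <;> norm_num

/-- upper bound for the weight -/
lemma wq_le {n σ : ℕ} (hσ : σ = 1 ∨ σ = 3) (l : ℕ) (hl : l < 2 * n) :
    |wq n σ l| * ((l + 8 * n).factorial : ℚ) ^ 2 ≤
      ((l + 1).factorial : ℚ) * ((2 * n - 1 - l).factorial : ℚ) * (l.factorial : ℚ) ^ 2 := by
  obtain ⟨h0, h1, _, _⟩ := xq_a hσ
  unfold wq xq
  set a : ℚ := (σ : ℚ) / 4
  rw [abs_div, U_split n a h0 h1 l hl, abs_pow]
  have hP := prodP_ge a h0 l (8 * n)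
  have hP0 : 0 < ∏ k ∈ Finset.range (8 * n), ((l : ℚ) + a + (k + 1)) := by
    apply Finset.prod_pos
    intro i _
    positivity
  set P := ∏ k ∈ Finset.range (8 * n), ((l : ℚ) + a + (k + 1)) with hPd
  rw [abs_of_pos hP0, div_mul_eq_mul_div, div_le_iff₀ (by positivity)]
  have hA := prodA_le a h0 h1 l
  have hB := prodB_le a h0 h1 (2 * n - 1 - l)
  have hA0 : 0 ≤ ∏ i ∈ Finset.range (l + 1), ((i : ℚ) + a) := Finset.prod_nonneg fun i _ => by positivity
  have hB0 : 0 ≤ ∏ i ∈ Finset.range (2 * n - 1 - l), ((i : ℚ) + 1 - a) := by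
    apply Finset.prod_nonneg
    intro i _
    have : (0 : ℚ) ≤ i := by positivity
    linarith
  calc (∏ i ∈ Finset.range (l + 1), ((i : ℚ) + a)) * (∏ i ∈ Finset.range (2 * n - 1 - l), ((i : ℚ) + 1 - a)) *
        ((l + 8 * n).factorial : ℚ) ^ 2
      ≤ ((l + 1).factorial : ℚ) * ((2 * n - 1 - l).factorial : ℚ) * ((l.factorial : ℚ) * P) ^ 2 := by
        gcongr
    _ = _ := by ring

/-- lower bound for the weight -/
lemma wq_ge {n σ : ℕ} (hn : 1 ≤ n) (hσ : σ = 1 ∨ σ = 3) (l : ℕ) (hl : l < 2 * n) :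
    (l.factorial : ℚ) ^ 3 * ((2 * n - 1 - l).factorial : ℚ) ≤
      3200 * (n : ℚ) ^ 3 * |wq n σ l| * ((l + 8 * n).factorial : ℚ) ^ 2 := by
  obtain ⟨h0, h1, h2, h3⟩ := xq_a hσ
  unfold wq xq
  set a : ℚ := (σ : ℚ) / 4
  rw [abs_div, U_split n a h0 h1 l hl, abs_pow]
  have hP := prodP_le a h0 h1 l (8 * n)
  have hP0 : 0 < ∏ k ∈ Finset.range (8 * n), ((l : ℚ) + a + (k + 1)) := by
    apply Finset.prod_pos
    intro i _
    positivity
  set P := ∏ k ∈ Finset.range (8 * n), ((l : ℚ) + a + (k + 1)) with hPd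
  have hA := prodA_ge a h0 l
  have hB := prodB_ge a h0 h1 (2 * n - 1 - l)
  have hB0 : 0 ≤ ∏ i ∈ Finset.range (2 * n - 1 - l), ((i : ℚ) + 1 - a) := by
    apply Finset.prod_nonneg
    intro i _
    have : (0 : ℚ) ≤ i := by positivity
    linarith
  set A := ∏ i ∈ Finset.range (l + 1), ((i : ℚ) + a)
  set B := ∏ i ∈ Finset.range (2 * n - 1 - l), ((i : ℚ) + 1 - a)
  rw [abs_of_pos hP0]
  rw [show 3200 * (n : ℚ) ^ 3 * (A * B / P ^ 2) * ((l + 8 * n).factorial : ℚ) ^ 2 =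
    (3200 * (n : ℚ) ^ 3 * (A * B) * ((l + 8 * n).factorial : ℚ) ^ 2) / P ^ 2 by ring, le_div_iff₀ (by positivity)]
  have hn' : (1 : ℚ) ≤ n := by exact_mod_cast hn
  have hl' : (l : ℚ) + 1 ≤ 2 * n := by exact_mod_cast hl
  -- l! P <= 10 n (l + 8n)!
  have hP2 : (l.factorial : ℚ) * P ≤ 10 * n * ((l + 8 * n).factorial : ℚ) := by
    have e1 : ((l + 1).factorial : ℚ) = ((l : ℚ) + 1) * (l.factorial : ℚ) := by
      rw [Nat.factorial_succ]; push_cast; ring
    have e2 : ((l + 1 + 8 * n).factorial : ℚ) = ((l : ℚ) + 8 * n + 1) * ((l + 8 * n).factorial : ℚ) := by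
      rw [show l + 1 + 8 * n = (l + 8 * n) + 1 by ring, Nat.factorial_succ]; push_cast; ring
    rw [e1, e2] at hP
    have hl0 : (0 : ℚ) ≤ l := by positivity
    have hf : (0 : ℚ) ≤ ((l + 8 * n).factorial : ℚ) := by positivity
    have h4 : (l.factorial : ℚ) * P ≤ ((l : ℚ) + 1) * ((l.factorial : ℚ) * P) := by
      have : 0 ≤ (l.factorial : ℚ) * P := by positivity
      nlinarith
    calc (l.factorial : ℚ) * P ≤ ((l : ℚ) + 1) * ((l.factorial : ℚ) * P) := h4
      _ = ((l : ℚ) + 1) * (l.factorial : ℚ) * P := by ring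
      _ ≤ ((l : ℚ) + 8 * n + 1) * ((l + 8 * n).factorial : ℚ) := hP
      _ ≤ 10 * n * ((l + 8 * n).factorial : ℚ) := by
        apply mul_le_mul_of_nonneg_right _ hf
        linarith
  have hr : ((2 * n - 1 - l : ℕ) : ℚ) + 1 ≤ 2 * n := by
    have : (2 * n - 1 - l : ℕ) + 1 ≤ 2 * n := by omega
    exact_mod_cast this
  have hB2 : ((2 * n - 1 - l).factorial : ℚ) ≤ 8 * n * B := by
    have h5 : 1 / 4 * ((2 * n - 1 - l).factorial : ℚ) ≤ 2 * n * B := by
      calc 1 / 4 * ((2 * n - 1 - l).factorial : ℚ) ≤ (1 - a) * ((2 * n - 1 - l).factorial : ℚ) := by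
            apply mul_le_mul_of_nonneg_right h3 (by positivity)
        _ ≤ _ := hB
        _ ≤ _ := mul_le_mul_of_nonneg_right hr hB0
    linarith
  have hA2 : (l.factorial : ℚ) ≤ 4 * A := by
    have : 1 / 4 * (l.factorial : ℚ) ≤ A := by
      refine le_trans ?_ hA
      apply mul_le_mul_of_nonneg_right h2 (by positivity)
    linarith
  have hA0 : 0 ≤ A := by
    have : (0 : ℚ) < (l.factorial : ℚ) := by positivity
    linarith
  calc (l.factorial : ℚ) ^ 3 * ((2 * n - 1 - l).factorial : ℚ) * P ^ 2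
      = (l.factorial : ℚ) * ((2 * n - 1 - l).factorial : ℚ) * ((l.factorial : ℚ) * P) ^ 2 := by ring
    _ ≤ (4 * A) * (8 * n * B) * (10 * n * ((l + 8 * n).factorial : ℚ)) ^ 2 := by
      gcongr
    _ = _ := by ring

/-- the zone polynomial without `l`, at `l` -/
lemma ZE_val {n : ℕ} (σ : ℕ) (l : ℕ) (hl : l < 2 * n) :
    |(Z2.ZE (xq σ) (2 * n) l).eval (xq σ l)| = (l.factorial : ℚ) * ((2 * n - 1 - l).factorial : ℚ) := by
  rw [← G5e_prod hl]
  unfold Z2.ZE
  rw [eval_prod, Finset.abs_prod]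
  apply Finset.prod_congr rfl
  intro i _
  unfold xq
  simp

lemma wq_ne {n σ : ℕ} (hn : 1 ≤ n) (hσ : σ = 1 ∨ σ = 3) (l : ℕ) (hl : l < 2 * n) : wq n σ l ≠ 0 := by
  intro h
  have := wq_ge hn hσ l hl
  rw [h] at this
  simp only [abs_zero, mul_zero, zero_mul] at this
  have h2 : (0 : ℚ) < (l.factorial : ℚ) ^ 3 * ((2 * n - 1 - l).factorial : ℚ) := by positivity
  linarith

end

end Pool.Agent.H216R2.QZ
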