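import Pool.Agent.H216R2.QZ.Z3

/-! Size of the zone determinant. -/

open Polynomial Filter Topology

namespace Pool.Agent.H216R2.QZ

noncomputable section

open Pool.Agent.H216R2.BB (G5_S G5_log_fact G5_reflect G5_shift G5_super SS G5e_prod)

/-- the zone constant -/
def ZTq : ℝ := 6 * SS 2 - 2 * (SS 10 - SS 8)

lemma log_wq {n σ : ℕ} (hn : 1 ≤ n) (hσ : σ = 1 ∨ σ = 3) (l : ℕ) (hl : l < 2 * n) :
    Real.log |((wq n σ l : ℚ) : ℝ)| ≤ 3 * Real.log (l.factorial : ℝ) + Real.log ((2 * n - 1 - l).factorial : ℝ) +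
      Real.log (2 * n) - 2 * Real.log ((l + 8 * n).factorial : ℝ) := by
  have h := wq_le hσ l hl
  have h' : |((wq n σ l : ℚ) : ℝ)| * (((l + 8 * n).factorial : ℕ) : ℝ) ^ 2 ≤
      (((l + 1).factorial : ℕ) : ℝ) * (((2 * n - 1 - l).factorial : ℕ) : ℝ) * ((l.factorial : ℕ) : ℝ) ^ 2 := by
    exact_mod_cast h
  have hw : 0 < |((wq n σ l : ℚ) : ℝ)| := by
    rw [abs_pos]
    exact_mod_cast wq_ne hn hσ l hl
  have h1 : (0 : ℝ) < (((l + 8 * n).factorial : ℕ) : ℝ) := by positivity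
  have h2 : (0 : ℝ) < (((2 * n - 1 - l).factorial : ℕ) : ℝ) := by positivity
  have h3 : (0 : ℝ) < ((l.factorial : ℕ) : ℝ) := by positivity
  have h4 : (((l + 1).factorial : ℕ) : ℝ) ≤ 2 * n * ((l.factorial : ℕ) : ℝ) := by
    rw [Nat.factorial_succ]
    push_cast
    apply mul_le_mul_of_nonneg_right _ h3.le
    have : l + 1 ≤ 2 * n := hl
    exact_mod_cast this
  have hn' : (1 : ℝ) ≤ n := by exact_mod_cast hn
  have h5 : |((wq n σ l : ℚ) : ℝ)| * (((l + 8 * n).factorial : ℕ) : ℝ) ^ 2 ≤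
      (2 * n * ((l.factorial : ℕ) : ℝ)) * (((2 * n - 1 - l).factorial : ℕ) : ℝ) * ((l.factorial : ℕ) : ℝ) ^ 2 := by
    refine h'.trans ?_
    gcongr
  have h6 := Real.log_le_log (by positivity) h5
  rw [Real.log_mul hw.ne' (by positivity), Real.log_pow, Real.log_mul (by positivity) (by positivity),
    Real.log_mul (by positivity) (by positivity), Real.log_mul (by positivity) (by positivity), Real.log_pow] at h6
  push_cast at h6
  linarith

lemma log_VD {n σ : ℕ} :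
    Real.log |((∏ l ∈ Finset.range (2 * n), (Z2.ZE (xq σ) (2 * n) l).eval (xq σ l) : ℚ) : ℝ)| = 2 * G5_S (2 * n) := by
  have e : |((∏ l ∈ Finset.range (2 * n), (Z2.ZE (xq σ) (2 * n) l).eval (xq σ l) : ℚ) : ℝ)| =
      ∏ l ∈ Finset.range (2 * n), ((l.factorial : ℝ) * ((2 * n - 1 - l).factorial : ℝ)) := by
    have : |(∏ l ∈ Finset.range (2 * n), (Z2.ZE (xq σ) (2 * n) l).eval (xq σ l) : ℚ)| =
        ∏ l ∈ Finset.range (2 * n), ((l.factorial : ℚ) * ((2 * n - 1 - l).factorial : ℚ)) := by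
      rw [Finset.abs_prod]
      apply Finset.prod_congr rfl
      intro l hl
      exact ZE_val σ l (Finset.mem_range.1 hl)
    rw [← Rat.cast_abs, this]
    push_cast
    rfl
  rw [e, Real.log_prod (fun l _ => by positivity)]
  have : ∀ l ∈ Finset.range (2 * n), Real.log ((l.factorial : ℝ) * ((2 * n - 1 - l).factorial : ℝ)) =
      Real.log (l.factorial : ℝ) + Real.log ((2 * n - 1 - l).factorial : ℝ) := by
    intro l _
    exact Real.log_mul (by positivity) (by positivity)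
  rw [Finset.sum_congr rfl this, Finset.sum_add_distrib, G5_reflect]
  unfold G5_S
  ring

lemma zone_total {n σ : ℕ} (hn : 1 ≤ n) (hσ : σ = 1 ∨ σ = 3) :
    ∑ l ∈ Finset.range (2 * n), Real.log |((wq n σ l : ℚ) : ℝ)| +
      Real.log |((∏ l ∈ Finset.range (2 * n), (Z2.ZE (xq σ) (2 * n) l).eval (xq σ l) : ℚ) : ℝ)| ≤
    6 * G5_S (2 * n) + 2 * n * Real.log (2 * n) - 2 * (G5_S (2 * n + 8 * n) - G5_S (8 * n)) := by
  rw [log_VD]
  have h1 : ∑ l ∈ Finset.range (2 * n), Real.log |((wq n σ l : ℚ) : ℝ)| ≤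
      ∑ l ∈ Finset.range (2 * n), (3 * Real.log (l.factorial : ℝ) + Real.log ((2 * n - 1 - l).factorial : ℝ) +
      Real.log (2 * n) - 2 * Real.log ((l + 8 * n).factorial : ℝ)) :=
    Finset.sum_le_sum fun l hl => log_wq hn hσ l (Finset.mem_range.1 hl)
  rw [Finset.sum_sub_distrib, Finset.sum_add_distrib, Finset.sum_add_distrib, ← Finset.mul_sum, ← Finset.mul_sum,
    G5_reflect, G5_shift, Finset.sum_const, Finset.card_range, nsmul_eq_mul] at h1
  have h2 : ∑ l ∈ Finset.range (2 * n), Real.log (l.factorial : ℝ) = G5_S (2 * n) := rfl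
  rw [h2] at h1
  push_cast at h1
  linarith

theorem Z4_zone : ∀ ε : ℝ, 0 < ε → ∀ᶠ N : ℕ in atTop, ∀ n : ℕ, n = 24 * N + 1 → ∀ σ : ℕ, (σ = 1 ∨ σ = 3) →
    ∑ l ∈ Finset.range (2 * n), Real.log |((wq n σ l : ℚ) : ℝ)| +
      Real.log |((∏ l ∈ Finset.range (2 * n), (Z2.ZE (xq σ) (2 * n) l).eval (xq σ l) : ℚ) : ℝ)| ≤
    -24 * (n : ℝ) ^ 2 * Real.log n + (ZTq + ε) * (n : ℝ) ^ 2 := by
  intro ε hε
  have hδ : 0 < ε / 20 := by positivity
  have h48 := G5_super 48 2 (by norm_num) (ε / 20) hδ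
  have h240 := G5_super 240 10 (by norm_num) (ε / 20) hδ
  have h192 := G5_super 192 8 (by norm_num) (ε / 20) hδ
  have hlog : Tendsto (fun x : ℝ => Real.log x / x) atTop (𝓝 0) := by
    have := Real.isLittleO_log_id_atTop.tendsto_div_nhds_zero
    simpa using this
  have ht : Tendsto (fun N : ℕ => (24 * (N : ℝ) + 1)) atTop atTop :=
    tendsto_atTop_add_const_right _ _ (tendsto_natCast_atTop_atTop.const_mul_atTop (by norm_num))
  have hl1 := (hlog.comp ht).eventually (gt_mem_nhds (show (0 : ℝ) < ε / 20 by positivity))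
  filter_upwards [h48, h240, h192, hl1, eventually_ge_atTop 1] with N e48 e240 e192 g1 hN n hn σ hσ
  have e48 := e48 n hn
  have e240 := e240 n hn
  have e192 := e192 n hn
  have hn1 : 1 ≤ n := by omega
  have hnr : (n : ℝ) = 24 * N + 1 := by
    rw [hn]
    push_cast
    ring
  have hN1 : (1 : ℝ) ≤ N := by exact_mod_cast hN
  have hn25 : (25 : ℝ) ≤ n := by rw [hnr]; linarith
  have hn0 : (0 : ℝ) < n := by linarith
  have a1 : (((48 : ℕ) : ℝ) / 24) = 2 := by norm_num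
  have a2 : (((240 : ℕ) : ℝ) / 24) = 10 := by norm_num
  have a3 : (((192 : ℕ) : ℝ) / 24) = 8 := by norm_num
  rw [a1] at e48
  rw [a2] at e240
  rw [a3] at e192
  have b1 : 48 * N + 2 = 2 * n := by omega
  have b2 : 240 * N + 10 = 2 * n + 8 * n := by omega
  have b3 : 192 * N + 8 = 8 * n := by omega
  rw [b1] at e48
  rw [b2] at e240
  rw [b3] at e192
  change |G5_S (2 * n) - _| ≤ _ at e48
  change |G5_S (2 * n + 8 * n) - _| ≤ _ at e240
  change |G5_S (8 * n) - _| ≤ _ at e192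
  rw [abs_le] at e48 e240 e192
  refine (zone_total hn1 hσ).trans ?_
  have hg1 : Real.log n ≤ ε / 20 * n := by
    have : Real.log (24 * (N : ℝ) + 1) / (24 * (N : ℝ) + 1) < ε / 20 := g1
    rw [← hnr, div_lt_iff₀ hn0] at this
    exact this.le
  have hLn : 1 ≤ Real.log n := by
    rw [Real.le_log_iff_exp_le hn0]
    have := Real.exp_one_lt_d9
    linarith
  have h2n : Real.log (2 * n) = Real.log 2 + Real.log n := Real.log_mul (by norm_num) hn0.ne'
  have hL2 : Real.log 2 ≤ 1 := by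
    have := Real.log_two_lt_d9
    linarith
  have c1 : 2 * n * Real.log (2 * n) ≤ ε / 5 * (n : ℝ) ^ 2 := by
    rw [h2n]
    have : Real.log 2 + Real.log n ≤ ε / 10 * n := by linarith
    nlinarith
  unfold ZTq
  have f1 := e48.2
  have f2 := e240.1
  have f3 := e192.2
  nlinarith

end

end Pool.Agent.H216R2.QZ
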