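import Pool.Agent.H216R2.QZ.Z4

/-! The zone is almost saturated. -/

open Polynomial Filter Topology

namespace Pool.Agent.H216R2.QZ

noncomputable section

open Pool.Agent.H216R2.BB (G5_S G5_log_fact G5_reflect G5_shift G5_super SS G5e_prod)

/-- `log (l!^5 (2n-1-l)!^3 / (l+8n)!²)` -/
def le (n l : ℕ) : ℝ := 5 * Real.log (l.factorial : ℝ) + 3 * Real.log ((2 * n - 1 - l).factorial : ℝ) -
  2 * Real.log ((l + 8 * n).factorial : ℝ)

/-- the loss factor in the zone -/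
def kq (N l : ℕ) : ℝ := if l < 21 * N then 0 else 17 / 10

/-- the value on the line at `y = 0` -/
def V0 : ℝ := 10 * Real.log 2 - 20 * Real.log 10 + 10

lemma log_Dz {n σ : ℕ} (hn : 1 ≤ n) (hσ : σ = 1 ∨ σ = 3) (l : ℕ) (hl : l < 2 * n) :
    0 < Z2.Dz (xq σ) (wq n σ) (2 * n) l ∧
    le n l ≤ Real.log (Z2.Dz (xq σ) (wq n σ) (2 * n) l) + Real.log 3200 + 3 * Real.log n := by
  have h := wq_ge hn hσ l hl
  have h' : ((l.factorial : ℕ) : ℝ) ^ 3 * (((2 * n - 1 - l).factorial : ℕ) : ℝ) ≤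
      3200 * (n : ℝ) ^ 3 * |((wq n σ l : ℚ) : ℝ)| * (((l + 8 * n).factorial : ℕ) : ℝ) ^ 2 := by
    exact_mod_cast h
  have hw : 0 < |((wq n σ l : ℚ) : ℝ)| := by
    rw [abs_pos]
    exact_mod_cast wq_ne hn hσ l hl
  have hz : (((Z2.ZE (xq σ) (2 * n) l).eval (xq σ l) : ℚ) : ℝ) ^ 2 =
      (((l.factorial : ℕ) : ℝ) * (((2 * n - 1 - l).factorial : ℕ) : ℝ)) ^ 2 := by
    rw [← sq_abs, ← Rat.cast_abs, ZE_val σ l hl]
    push_cast
    rfl
  have h1 : (0 : ℝ) < (((l + 8 * n).factorial : ℕ) : ℝ) := by positivity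
  have h2 : (0 : ℝ) < (((2 * n - 1 - l).factorial : ℕ) : ℝ) := by positivity
  have h3 : (0 : ℝ) < ((l.factorial : ℕ) : ℝ) := by positivity
  have hn' : (1 : ℝ) ≤ n := by exact_mod_cast hn
  have hD : Z2.Dz (xq σ) (wq n σ) (2 * n) l = |((wq n σ l : ℚ) : ℝ)| *
      (((l.factorial : ℕ) : ℝ) * (((2 * n - 1 - l).factorial : ℕ) : ℝ)) ^ 2 := by
    unfold Z2.Dz
    rw [hz]
  have hD0 : 0 < Z2.Dz (xq σ) (wq n σ) (2 * n) l := by rw [hD]; positivity
  refine ⟨hD0, ?_⟩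
  have h4 : (((l.factorial : ℕ) : ℝ) ^ 3 * (((2 * n - 1 - l).factorial : ℕ) : ℝ)) *
      (((l.factorial : ℕ) : ℝ) * (((2 * n - 1 - l).factorial : ℕ) : ℝ)) ^ 2 ≤
      3200 * (n : ℝ) ^ 3 * Z2.Dz (xq σ) (wq n σ) (2 * n) l * (((l + 8 * n).factorial : ℕ) : ℝ) ^ 2 := by
    rw [hD]
    calc (((l.factorial : ℕ) : ℝ) ^ 3 * (((2 * n - 1 - l).factorial : ℕ) : ℝ)) *
      (((l.factorial : ℕ) : ℝ) * (((2 * n - 1 - l).factorial : ℕ) : ℝ)) ^ 2 ≤
      (3200 * (n : ℝ) ^ 3 * |((wq n σ l : ℚ) : ℝ)| * (((l + 8 * n).factorial : ℕ) : ℝ) ^ 2) *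
      (((l.factorial : ℕ) : ℝ) * (((2 * n - 1 - l).factorial : ℕ) : ℝ)) ^ 2 :=
        mul_le_mul_of_nonneg_right h' (by positivity)
      _ = _ := by ring
  have h6 := Real.log_le_log (by positivity) h4
  rw [show (((l.factorial : ℕ) : ℝ) ^ 3 * (((2 * n - 1 - l).factorial : ℕ) : ℝ)) *
      (((l.factorial : ℕ) : ℝ) * (((2 * n - 1 - l).factorial : ℕ) : ℝ)) ^ 2 =
      ((l.factorial : ℕ) : ℝ) ^ 5 * (((2 * n - 1 - l).factorial : ℕ) : ℝ) ^ 3 by ring] at h6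
  rw [Real.log_mul (by positivity) (by positivity), Real.log_pow, Real.log_pow,
    Real.log_mul (by positivity) (by positivity), Real.log_mul (by positivity) hD0.ne',
    Real.log_mul (by positivity) (by positivity), Real.log_pow, Real.log_pow] at h6
  unfold le
  push_cast at h6
  linarith

lemma le_succ {n l : ℕ} (hl : l + 1 < 2 * n) :
    le n (l + 1) - le n l = 5 * Real.log (l + 1) - 3 * Real.log (2 * n - (l + 1)) - 2 * Real.log (l + 1 + 8 * n) := by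
  unfold le
  have e1 : (((l + 1).factorial : ℕ) : ℝ) = ((l : ℝ) + 1) * ((l.factorial : ℕ) : ℝ) := by
    rw [Nat.factorial_succ]; push_cast; ring
  have e2 : (((2 * n - 1 - l).factorial : ℕ) : ℝ) =
      (2 * (n : ℝ) - (l + 1)) * (((2 * n - 1 - (l + 1)).factorial : ℕ) : ℝ) := by
    have h : 2 * n - 1 - l = (2 * n - 1 - (l + 1)) + 1 := by omega
    rw [h, Nat.factorial_succ]
    push_cast
    have h2 : ((2 * n - 1 - (l + 1) : ℕ) : ℝ) = 2 * (n : ℝ) - 1 - (l + 1) := by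
      rw [Nat.cast_sub (by omega), Nat.cast_sub (by omega)]
      push_cast; ring
    rw [h2]
    ring
  have e3 : (((l + 1 + 8 * n).factorial : ℕ) : ℝ) = ((l : ℝ) + 1 + 8 * n) * (((l + 8 * n).factorial : ℕ) : ℝ) := by
    rw [show l + 1 + 8 * n = (l + 8 * n) + 1 by ring, Nat.factorial_succ]; push_cast; ring
  have hl' : (l : ℝ) + 1 < 2 * n := by exact_mod_cast hl
  rw [e1, e2, e3, Real.log_mul (by positivity) (by positivity), Real.log_mul (by linarith) (by positivity),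
    Real.log_mul (by positivity) (by positivity)]
  ring

/-- decreasing up to `37 N` -/
lemma le_anti {n N : ℕ} (hN : 1 ≤ N) (hn : n = 24 * N + 1) {l : ℕ} (hl : l + 1 ≤ 37 * N) : le n (l + 1) ≤ le n l := by
  have h := le_succ (n := n) (l := l) (by omega)
  have hs : (l : ℝ) + 1 ≤ 37 * N := by exact_mod_cast hl
  have hN' : (1 : ℝ) ≤ N := by exact_mod_cast hN
  have hnr : (n : ℝ) = 24 * N + 1 := by rw [hn]; push_cast; ring
  have hl0 : (0 : ℝ) < (l : ℝ) + 1 := by positivity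
  set s : ℝ := (l : ℝ) + 1 with hs_def
  have h1 : 11 * (N : ℝ) ≤ 2 * n - s := by rw [hnr]; linarith
  have h2 : 229 * s ≤ 37 * (s + 8 * n) := by rw [hnr]; linarith
  have h3 : s ^ 5 ≤ (2 * n - s) ^ 3 * (s + 8 * n) ^ 2 := by
    have a1 : s ^ 3 ≤ (37 * (N : ℝ)) ^ 3 := pow_le_pow_left₀ hl0.le hs 3
    have a2 : (11 * (N : ℝ)) ^ 3 ≤ (2 * n - s) ^ 3 := pow_le_pow_left₀ (by positivity) h1 3
    have a3 : (229 * s) ^ 2 ≤ (37 * (s + 8 * n)) ^ 2 := pow_le_pow_left₀ (by positivity) h2 2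
    have a4 : s ^ 2 ≤ (37 / 229) ^ 2 * (s + 8 * n) ^ 2 := by
      have : (229 : ℝ) ^ 2 * s ^ 2 ≤ 37 ^ 2 * (s + 8 * n) ^ 2 := by rw [← mul_pow, ← mul_pow]; exact a3
      nlinarith
    have hb : 0 ≤ (s + 8 * n) ^ 2 := by positivity
    calc s ^ 5 = s ^ 3 * s ^ 2 := by ring
      _ ≤ (37 * (N : ℝ)) ^ 3 * ((37 / 229) ^ 2 * (s + 8 * n) ^ 2) := by gcongr
      _ = (37 ^ 3 * (37 / 229) ^ 2 * (N : ℝ) ^ 3) * (s + 8 * n) ^ 2 := by ring
      _ ≤ (11 ^ 3 * (N : ℝ) ^ 3) * (s + 8 * n) ^ 2 := by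
        apply mul_le_mul_of_nonneg_right _ hb
        apply mul_le_mul_of_nonneg_right _ (by positivity)
        norm_num
      _ = (11 * (N : ℝ)) ^ 3 * (s + 8 * n) ^ 2 := by ring
      _ ≤ _ := mul_le_mul_of_nonneg_right a2 hb
  have h4 : 0 < 2 * n - s := by
    have : (0 : ℝ) < 11 * N := by positivity
    linarith
  have h5 := Real.log_le_log (by positivity) h3
  rw [Real.log_pow, Real.log_mul (by positivity) (by positivity), Real.log_pow, Real.log_pow] at h5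
  push_cast at h5
  linarith

/-- slowly decreasing at worst after `37 N` -/
lemma le_step {n N : ℕ} (hN : 100 ≤ N) (hn : n = 24 * N + 1) {l : ℕ} (hl : 37 * N ≤ l) (hl2 : l + 1 < 2 * n) :
    le n l - 1 / 40 ≤ le n (l + 1) := by
  have h := le_succ (n := n) (l := l) hl2
  have hs : 37 * (N : ℝ) ≤ (l : ℝ) + 1 := by
    have : (37 * N : ℕ) ≤ l + 1 := by omega
    exact_mod_cast this
  have hs2 : (l : ℝ) + 1 < 2 * n := by exact_mod_cast hl2
  have hN' : (100 : ℝ) ≤ N := by exact_mod_cast hN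
  have hnr : (n : ℝ) = 24 * N + 1 := by rw [hn]; push_cast; ring
  have hl0 : (0 : ℝ) < (l : ℝ) + 1 := by positivity
  set s : ℝ := (l : ℝ) + 1 with hs_def
  have h1 : 2 * n - s ≤ 1102 / 100 * (N : ℝ) := by rw [hnr]; linarith
  have h0 : 0 < 2 * n - s := by linarith
  have h2 : 37 * (s + 8 * n) ≤ 2291 / 10 * s := by rw [hnr]; linarith
  have h3 : (98 / 100) * ((2 * n - s) ^ 3 * (s + 8 * n) ^ 2) ≤ s ^ 5 := by
    have a1 : (37 * (N : ℝ)) ^ 3 ≤ s ^ 3 := pow_le_pow_left₀ (by positivity) hs 3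
    have a2 : (2 * n - s) ^ 3 ≤ (1102 / 100 * (N : ℝ)) ^ 3 := pow_le_pow_left₀ h0.le h1 3
    have a3 : (37 * (s + 8 * n)) ^ 2 ≤ (2291 / 10 * s) ^ 2 := pow_le_pow_left₀ (by positivity) h2 2
    have a4 : (s + 8 * n) ^ 2 ≤ (2291 / 370) ^ 2 * s ^ 2 := by
      have : (37 : ℝ) ^ 2 * (s + 8 * n) ^ 2 ≤ (2291 / 10) ^ 2 * s ^ 2 := by rw [← mul_pow, ← mul_pow]; exact a3
      nlinarith
    calc (98 / 100) * ((2 * n - s) ^ 3 * (s + 8 * n) ^ 2) ≤
          (98 / 100) * ((1102 / 100 * (N : ℝ)) ^ 3 * ((2291 / 370) ^ 2 * s ^ 2)) := by gcongr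
      _ = (98 / 100 * (1102 / 100) ^ 3 * (2291 / 370) ^ 2 / 37 ^ 3) * ((37 * (N : ℝ)) ^ 3 * s ^ 2) := by ring
      _ ≤ 1 * ((37 * (N : ℝ)) ^ 3 * s ^ 2) := by
        apply mul_le_mul_of_nonneg_right _ (by positivity)
        norm_num
      _ ≤ s ^ 3 * s ^ 2 := by rw [one_mul]; gcongr
      _ = s ^ 5 := by ring
  have h5 := Real.log_le_log (by positivity) h3
  rw [Real.log_pow, Real.log_mul (by norm_num) (by positivity), Real.log_mul (by positivity) (by positivity),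
    Real.log_pow, Real.log_pow] at h5
  have h6 : -(1 / 40 : ℝ) ≤ Real.log (98 / 100) := by
    have := Real.one_sub_inv_le_log_of_pos (show (0 : ℝ) < 98 / 100 by norm_num)
    norm_num at this ⊢
    linarith
  push_cast at h5
  linarith

lemma le_mono_iter {n N : ℕ} (hN : 1 ≤ N) (hn : n = 24 * N + 1) {l b : ℕ} (hlb : l ≤ b) (hb : b ≤ 37 * N) :
    le n b ≤ le n l := by
  induction b, hlb using Nat.le_induction with
  | base => exact le_rfl
  | succ b _ ih => exact (le_anti hN hn hb).trans (ih (by omega))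

lemma le_step_iter {n N : ℕ} (hN : 100 ≤ N) (hn : n = 24 * N + 1) {l : ℕ} (hl : 37 * N ≤ l) (hl2 : l < 2 * n) :
    le n (37 * N) - ((l : ℝ) - 37 * N) / 40 ≤ le n l := by
  induction l, hl using Nat.le_induction with
  | base => push_cast; linarith
  | succ l hl ih =>
    have h1 := le_step hN hn hl hl2
    have h2 := ih (by omega)
    push_cast
    push_cast at h2
    linarith

end

end Pool.Agent.H216R2.QZ
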