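import Pool.Agent.H216R2.QZ.Z5

/-! The zone is almost saturated: Stirling at the anchors. -/

open Polynomial Filter Topology

namespace Pool.Agent.H216R2.QZ

noncomputable section

open Pool.Agent.H216R2.BB (G5_S G5_log_fact)

set_option maxRecDepth 100000 in
set_option exponentiation.threshold 2000 in
lemma cert21 : 0 ≤ 105 * Real.log 21 + 81 * Real.log 27 - 426 * Real.log 213 + 240 * Real.log 12 + 480 * Real.log 10 := by
  have h : (213 : ℝ) ^ 426 ≤ 21 ^ 105 * 27 ^ 81 * 12 ^ 240 * 10 ^ 480 := by norm_num
  have h2 := Real.log_le_log (by positivity) h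
  rw [Real.log_mul (by positivity) (by positivity), Real.log_mul (by positivity) (by positivity),
    Real.log_mul (by positivity) (by positivity), Real.log_pow, Real.log_pow, Real.log_pow, Real.log_pow,
    Real.log_pow] at h2
  push_cast at h2
  linarith

set_option maxRecDepth 100000 in
set_option exponentiation.threshold 2000 in
lemma cert37 : 0 ≤ 185 * Real.log 37 + 33 * Real.log 11 - 458 * Real.log 229 + 240 * Real.log 12 + 480 * Real.log 10 +
    58 * Real.log 2 := by
  have h : (229 : ℝ) ^ 458 ≤ 37 ^ 185 * 11 ^ 33 * 12 ^ 240 * 10 ^ 480 * 2 ^ 58 := by norm_num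
  have h2 := Real.log_le_log (by positivity) h
  rw [Real.log_mul (by positivity) (by positivity), Real.log_mul (by positivity) (by positivity),
    Real.log_mul (by positivity) (by positivity), Real.log_mul (by positivity) (by positivity), Real.log_pow,
    Real.log_pow, Real.log_pow, Real.log_pow, Real.log_pow, Real.log_pow] at h2
  push_cast at h2
  linarith

lemma log_fact_ge (M : ℕ) (hM : 1 ≤ M) : (M : ℝ) * Real.log M - M ≤ Real.log (M.factorial : ℝ) :=
  Pool.Agent.H336R2.HD.F6_log_fact M hM

lemma anchor {n N a b c : ℕ} (hN : 100 ≤ N) (hn : n = 24 * N + 1) (ha : 1 ≤ a) (hb : 1 ≤ b) (hab : a + b = 48)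
    (hc : c = 192 + a) (κ : ℝ)
    (hcert : 0 ≤ 5 * a * Real.log a + 3 * b * Real.log b - 2 * c * Real.log c + 240 * Real.log 12 +
      480 * Real.log 10 + κ) :
    (n : ℝ) * V0 - 10 * n * Real.log n - κ * N ≤ le n (a * N) + 2 + 18 * (Real.log 10 + Real.log n) := by
  have hN' : (100 : ℝ) ≤ N := by exact_mod_cast hN
  have hnr : (n : ℝ) = 24 * N + 1 := by rw [hn]; push_cast; ring
  have hN0 : (0 : ℝ) < N := by linarith
  have ha' : (1 : ℝ) ≤ a := by exact_mod_cast ha
  have hb' : (1 : ℝ) ≤ b := by exact_mod_cast hb
  have hab' : (a : ℝ) + b = 48 := by exact_mod_cast hab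
  have hc' : (c : ℝ) = 192 + a := by rw [hc]; push_cast; ring
  have hLn : 0 ≤ Real.log n := Real.log_nonneg (by rw [hnr]; linarith)
  -- lower bounds
  have h1 := log_fact_ge (a * N) (by nlinarith)
  have h2 := log_fact_ge (b * N) (by nlinarith)
  have h2' : Real.log ((b * N).factorial : ℝ) ≤ Real.log ((2 * n - 1 - a * N).factorial : ℝ) := by
    apply Real.log_le_log (by positivity)
    have : b * N ≤ 2 * n - 1 - a * N := by
      have : a * N + b * N = 48 * N := by rw [← add_mul, hab]
      omega
    exact_mod_cast Nat.factorial_le this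
  -- upper bound
  have h3 := G5_log_fact (c * N) (by nlinarith)
  have hcN : (1 : ℝ) ≤ c * N := by nlinarith
  have h10n : (c : ℝ) * N + 8 ≤ 10 * n := by rw [hnr, hc']; nlinarith
  have h3' : ∀ j : ℕ, j ≤ 8 → Real.log ((c * N + j).factorial : ℝ) ≤ Real.log ((c * N).factorial : ℝ) +
      j * (Real.log 10 + Real.log n) := by
    intro j
    induction j with
    | zero => intro _; simp
    | succ j ih =>
      intro hj
      have ih' := ih (by omega)
      have hj' : (j : ℝ) + 1 ≤ 8 := by exact_mod_cast hj
      have e : (((c * N + (j + 1)).factorial : ℕ) : ℝ) = ((c : ℝ) * N + j + 1) * (((c * N + j).factorial : ℕ) : ℝ) := by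
        rw [← add_assoc, Nat.factorial_succ]; push_cast; ring
      rw [e, Real.log_mul (by positivity) (by positivity)]
      have h4 : Real.log ((c : ℝ) * N + j + 1) ≤ Real.log 10 + Real.log n := by
        rw [← Real.log_mul (by norm_num) (by rw [hnr]; positivity)]
        apply Real.log_le_log (by positivity)
        linarith
      push_cast
      linarith
  have h4 := h3' 8 le_rfl
  have e8 : a * N + 8 * n = c * N + 8 := by rw [hc, hn]; ring
  have h5 : Real.log ((c : ℝ) * N) ≤ Real.log 10 + Real.log n := by
    rw [← Real.log_mul (by norm_num) (by rw [hnr]; positivity)]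
    apply Real.log_le_log (by positivity)
    linarith
  -- logarithms of products
  have la : Real.log ((a : ℝ) * N) = Real.log a + Real.log N := Real.log_mul (by positivity) (by positivity)
  have lb : Real.log ((b : ℝ) * N) = Real.log b + Real.log N := Real.log_mul (by positivity) (by positivity)
  have lc : Real.log ((c : ℝ) * N) = Real.log c + Real.log N :=
    Real.log_mul (by rw [hc']; positivity) (by positivity)
  push_cast at h1 h2 h3
  rw [la] at h1
  rw [lb] at h2
  rw [lc] at h3 h5
  unfold le
  rw [e8]
  -- the right hand side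
  have hV0 : V0 ≤ 0 := by
    unfold V0
    have := Real.log_two_lt_d9
    have h10 : Real.log 10 = Real.log 2 + Real.log 5 := by
      rw [← Real.log_mul (by norm_num) (by norm_num)]; norm_num
    have h5 : Real.log 4 ≤ Real.log 5 := Real.log_le_log (by norm_num) (by norm_num)
    have h4 : Real.log 4 = 2 * Real.log 2 := by
      rw [show (4 : ℝ) = 2 ^ 2 by norm_num, Real.log_pow]; push_cast; ring
    have := Real.log_two_gt_d9
    rw [h10]
    linarith
  have r1 : (n : ℝ) * V0 ≤ 24 * N * V0 := by rw [hnr]; nlinarith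
  have r2 : 24 * (N : ℝ) * (Real.log 24 + Real.log N) ≤ n * Real.log n := by
    have h24 : Real.log 24 + Real.log N ≤ Real.log n := by
      rw [← Real.log_mul (by norm_num) (by positivity)]
      apply Real.log_le_log (by positivity)
      rw [hnr]; linarith
    have hp : 0 ≤ Real.log 24 + Real.log N :=
      add_nonneg (Real.log_nonneg (by norm_num)) (Real.log_nonneg (by linarith))
    calc 24 * (N : ℝ) * (Real.log 24 + Real.log N) ≤ n * (Real.log 24 + Real.log N) := by
          apply mul_le_mul_of_nonneg_right _ hp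
          rw [hnr]; linarith
      _ ≤ _ := mul_le_mul_of_nonneg_left h24 (by positivity)
  have l24 : Real.log 24 = Real.log 12 + Real.log 2 := by
    rw [← Real.log_mul (by norm_num) (by norm_num)]; norm_num
  rw [l24] at r2
  unfold V0 at r1 ⊢
  have hcN2 := mul_nonneg hcert hN0.le
  rw [hc'] at hcN2 h3 h5
  have eb : (b : ℝ) = 48 - a := by linarith
  rw [eb] at hcN2 h2
  push_cast at h4
  rw [hc'] at *
  nlinarith

/-- the zone is almost saturated -/
theorem Z6_sat : ∃ C : ℝ, ∀ N : ℕ, 100 ≤ N → ∀ n : ℕ, n = 24 * N + 1 → ∀ σ : ℕ, (σ = 1 ∨ σ = 3) → ∀ l < 2 * n,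
    (n : ℝ) * V0 - 10 * n * Real.log n ≤ C + 21 * Real.log n + kq N l * n +
      Real.log (Z2.Dz (xq σ) (wq n σ) (2 * n) l) := by
  refine ⟨2 + 18 * Real.log 10 + Real.log 3200 + 58 * Real.log 2 + 10, ?_⟩
  intro N hN n hn σ hσ l hl
  have h21 := anchor (a := 21) (b := 27) (c := 213) hN hn (by norm_num) (by norm_num) (by norm_num) (by norm_num) 0
    (by have := cert21; push_cast; linarith)
  have h37 := anchor (a := 37) (b := 11) (c := 229) hN hn (by norm_num) (by norm_num) (by norm_num) (by norm_num)
    (58 * Real.log 2) (by have := cert37; push_cast; linarith)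
  obtain ⟨_, hD⟩ := log_Dz (n := n) (by omega) hσ l hl
  have hN' : (100 : ℝ) ≤ N := by exact_mod_cast hN
  have hnr : (n : ℝ) = 24 * N + 1 := by rw [hn]; push_cast; ring
  have hl2 := Real.log_two_lt_d9
  have hl2' := Real.log_two_gt_d9
  unfold kq
  split_ifs with h
  · have h1 := le_mono_iter (by omega) hn h.le (by omega : 21 * N ≤ 37 * N)
    linarith
  · have key : le n (37 * N) - (11 * N + 2) / 40 ≤ le n l := by
      rcases le_or_gt l (37 * N) with h3 | h3
      · have h1 := le_mono_iter (by omega) hn h3 le_rfl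
        have : (0 : ℝ) ≤ (11 * N + 2) / 40 := by positivity
        linarith
      · have h1 := le_step_iter hN hn h3.le hl
        have h4 : (l : ℝ) ≤ 48 * N + 2 := by
          have : l ≤ 48 * N + 2 := by omega
          exact_mod_cast this
        have : ((l : ℝ) - 37 * N) / 40 ≤ (11 * N + 2) / 40 := by
          apply div_le_div_of_nonneg_right _ (by norm_num)
          linarith
        linarith
    have h5 : 58 * Real.log 2 * N + (11 * N + 2) / 40 ≤ 17 / 10 * n + 10 := by
      rw [hnr]
      nlinarith
    nlinarith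

end

end Pool.Agent.H216R2.QZ
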