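import Pool.Agent.H216R2.QZ.Z6
import Pool.Agent.H397R2.QG.Defs
import Pool.Agent.H383.QG.GDefs

/-! Assembly of the archimedean bound `G7_arch` (project QG), from the line part and `B2_NL_le` (as hypotheses). -/

open Polynomial Filter Topology Pool.Agent.H337R2

namespace Pool.Agent.H216R2.QZ

noncomputable section

open Pool.Agent.H397R2.QG
open Pool.Agent.QG.LG (WL zc PhiG)

lemma wh_eq (n σ l : ℕ) : wh n σ l = wq n σ l := by
  unfold wh wq PPn
  have e1 : (∏ i ∈ Finset.range (2 * n), (X - C (i : ℚ)) : ℚ[X]).eval (xh σ l) =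
      ∏ i ∈ Finset.range (2 * n), (xq σ l - i) := by
    rw [eval_prod]
    simp [xh, xq]
  have e2 : ∏ k ∈ Finset.Icc 1 (8 * n), (xh σ l + k) = ∏ k ∈ Finset.range (8 * n), (xq σ l + (k + 1)) := by
    rw [Finset.range_eq_Ico, ← Finset.Ico_succ_right_eq_Icc, Finset.prod_Ico_eq_prod_range]
    apply Finset.prod_congr (by simp)
    intro k _
    unfold xh xq
    push_cast
    ring
  rw [e1, e2]

lemma zt_eq (n σ : ℕ) (y : ℝ) : zt n σ y = zc n σ y := by
  unfold zt zc cl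
  push_cast
  ring

/-- the weight on the line -/
def wtq (n σ : ℕ) (y : ℝ) : ℝ := ‖Rn n σ y‖ * Real.exp (-(2 * Real.pi * |y|)) * (1 + y ^ 2)

lemma wtq_nonneg (n σ : ℕ) (y : ℝ) : 0 ≤ wtq n σ y := by unfold wtq; positivity

lemma WL_eq (n σ : ℕ) (y : ℝ) :
    ‖Rn n σ y‖ * ‖aeval (zt n σ y) (Z2.ZZ (xq σ) (2 * n))‖ ^ 2 = WL n σ y := by
  unfold Rn WL
  have e1 : ‖aeval (zt n σ y) (PPn n)‖ = ∏ j ∈ Finset.range (2 * n), ‖zc n σ y - (j : ℂ)‖ := by
    unfold PPn
    rw [map_prod, norm_prod, zt_eq]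
    apply Finset.prod_congr rfl
    intro j _
    simp
  have e2 : ‖aeval (zt n σ y) (QQ (sQ n) m2)‖ = ∏ k ∈ Finset.Icc 1 (8 * n), ‖zc n σ y + (k : ℂ)‖ ^ 2 := by
    unfold QQ sQ m2
    rw [map_prod, norm_prod, zt_eq]
    apply Finset.prod_congr rfl
    intro j _
    simp
  have e3 : ‖aeval (zt n σ y) (Z2.ZZ (xq σ) (2 * n))‖ ^ 2 =
      ∏ v ∈ Finset.range (2 * n), ‖zc n σ y - ((v : ℂ) + σ / 4)‖ ^ 2 := by
    unfold Z2.ZZ
    rw [map_prod, norm_prod, zt_eq, ← Finset.prod_pow]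
    apply Finset.prod_congr rfl
    intro j _
    unfold xq
    simp
  rw [norm_div, e1, e2, e3]
  ring

lemma dist_line {n σ : ℕ} (hσ : σ = 1 ∨ σ = 3) (l : ℕ) (hl : l < 2 * n) (y : ℝ) :
    1 / 8 ≤ ‖zt n σ y - ((xq σ l : ℚ) : ℂ)‖ := by
  refine le_trans ?_ (Complex.re_le_norm _)
  have hl' : (l : ℝ) + 1 ≤ 2 * n := by exact_mod_cast hl
  have e : (zt n σ y - ((xq σ l : ℚ) : ℂ)).re = 2 * n - (4 - σ) / 8 - (l + σ / 4) := by
    unfold zt cl xq
    simp
  rw [e]
  rcases hσ with rfl | rfl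
  · push_cast; linarith
  · push_cast; linarith

lemma ZTq_le : ZTq ≤ -527 / 10 := by
  unfold ZTq Pool.Agent.H216R2.BB.SS
  have h10 : Real.log 10 = Real.log 2 + Real.log 5 := by
    rw [← Real.log_mul (by norm_num) (by norm_num)]; norm_num
  have h8 : Real.log 8 = 3 * Real.log 2 := by
    rw [show (8 : ℝ) = 2 ^ 3 by norm_num, Real.log_pow]; push_cast; ring
  have h5 : 232 * Real.log 2 ≤ 100 * Real.log 5 := by
    have h : (2 : ℝ) ^ 232 ≤ 5 ^ 100 := by norm_num
    have h2 := Real.log_le_log (by positivity) h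
    rw [Real.log_pow, Real.log_pow] at h2
    push_cast at h2
    exact h2
  have h2 := Real.log_two_gt_d9
  rw [h10, h8]
  nlinarith

lemma sum_kq {N n : ℕ} (hn : n = 24 * N + 1) : ∑ l ∈ Finset.range (2 * n), kq N l = 17 / 10 * (27 * N + 2) := by
  have e : 2 * n = 21 * N + (27 * N + 2) := by omega
  rw [e, Finset.sum_range_add]
  have h1 : ∑ l ∈ Finset.range (21 * N), kq N l = 0 := by
    apply Finset.sum_eq_zero
    intro l hl
    rw [Finset.mem_range] at hl
    unfold kq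
    rw [if_pos hl]
  have h2 : ∑ l ∈ Finset.range (27 * N + 2), kq N (21 * N + l) = 17 / 10 * (27 * N + 2) := by
    have : ∀ l ∈ Finset.range (27 * N + 2), kq N (21 * N + l) = 17 / 10 := by
      intro l _
      unfold kq
      rw [if_neg (by omega)]
    rw [Finset.sum_congr rfl this, Finset.sum_const, Finset.card_range, nsmul_eq_mul]
    push_cast
    ring
  rw [h1, h2, zero_add]

lemma kq_nonneg (N l : ℕ) : 0 ≤ kq N l := by
  unfold kq
  split_ifs <;> norm_num

/-- the logarithm of the determinant inequality -/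
lemma core {n N σ : ℕ} (_hN : 100 ≤ N) (hn : n = 24 * N + 1) (hσ : σ = 1 ∨ σ = 3) {C1 : ℝ} {K1 : ℕ} (hC1 : 1 ≤ C1)
    (A : ℕ → ℝ) (hA : ∀ j < 5 * n, 0 < A j)
    (hA0 : A 0 ^ 2 * (n : ℝ) ^ (10 * n) ≤ C1 * (n : ℝ) ^ K1 * Real.exp (n * PhiG)) {CS : ℝ} (hCS : 0 ≤ CS)
    (hS : ∀ l < 2 * n, (n : ℝ) * V0 - 10 * n * Real.log n ≤ CS + 21 * Real.log n + kq N l * n +
      Real.log (Z2.Dz (xq σ) (wq n σ) (2 * n) l))
    (D : ℝ) (hD : D ≠ 0)
    (hB : |D| * |((∏ l ∈ Finset.range (2 * n), (Z2.ZE (xq σ) (2 * n) l).eval (xq σ l) : ℚ) : ℝ)| ≤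
      ((7 * n).factorial : ℝ) * (∏ l ∈ Finset.range (2 * n), (Z2.Dz (xq σ) (wq n σ) (2 * n) l + 16 * (64 * A 0 ^ 2))) *
        ∏ j ∈ Finset.range (5 * n), (16 * Real.exp (2 * Real.log (A j)))) :
    Real.log |D| ≤ Real.log ((7 * n).factorial : ℝ) +
      (∑ l ∈ Finset.range (2 * n), Real.log |((wq n σ l : ℚ) : ℝ)| +
        Real.log |((∏ l ∈ Finset.range (2 * n), (Z2.ZE (xq σ) (2 * n) l).eval (xq σ l) : ℚ) : ℝ)|) +
      2 * n * (Real.log 1025 + Real.log C1 + CS + (K1 + 21) * Real.log n) + 17 / 10 * (27 * N + 2) * n +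
      5 * n * Real.log 16 + ∑ j ∈ Finset.range (5 * n), 2 * Real.log (A j) := by
  have hn1 : 1 ≤ n := by omega
  have hn1' : (1 : ℝ) ≤ n := by exact_mod_cast hn1
  have hn0 : (0 : ℝ) < n := by linarith
  have hL : 0 ≤ Real.log n := Real.log_nonneg hn1'
  have hDz : ∀ l < 2 * n, 0 < Z2.Dz (xq σ) (wq n σ) (2 * n) l := fun l hl => (log_Dz hn1 hσ l hl).1
  have hw : ∀ l < 2 * n, 0 < |((wq n σ l : ℚ) : ℝ)| := by
    intro l hl
    rw [abs_pos]
    exact_mod_cast wq_ne hn1 hσ l hl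
  have hZE : ∀ l < 2 * n, ((((Z2.ZE (xq σ) (2 * n) l).eval (xq σ l) : ℚ) : ℝ)) ≠ 0 := by
    intro l hl h
    have := hDz l hl
    unfold Z2.Dz at this
    rw [h] at this
    simp at this
  set V : ℝ := ((∏ l ∈ Finset.range (2 * n), (Z2.ZE (xq σ) (2 * n) l).eval (xq σ l) : ℚ) : ℝ) with hV
  have hV0 : V ≠ 0 := by
    rw [hV]
    push_cast
    rw [Finset.prod_ne_zero_iff]
    intro l hl
    exact hZE l (Finset.mem_range.1 hl)
  have hVp : 0 < |V| := abs_pos.2 hV0
  have hDp : 0 < |D| := abs_pos.2 hD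
  have hA0p : 0 < A 0 := hA 0 (by omega)
  -- log A0²
  have hlA : Real.log (A 0 ^ 2) ≤ Real.log C1 + K1 * Real.log n + n * V0 - 10 * n * Real.log n := by
    have h := Real.log_le_log (by positivity) hA0
    rw [Real.log_mul (by positivity) (by positivity), Real.log_mul (by positivity) (by positivity),
      Real.log_mul (by positivity) (by positivity), Real.log_exp, Real.log_pow n, Real.log_pow n] at h
    have hP : PhiG = V0 := by unfold PhiG V0; ring
    rw [hP] at h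
    push_cast at h
    linarith
  -- zone factors
  have hzone : ∀ l ∈ Finset.range (2 * n), Real.log (Z2.Dz (xq σ) (wq n σ) (2 * n) l + 16 * (64 * A 0 ^ 2)) ≤
      Real.log (Z2.Dz (xq σ) (wq n σ) (2 * n) l) + (Real.log 1025 + Real.log C1 + CS + (K1 + 21) * Real.log n) +
        kq N l * n := by
    intro l hl
    rw [Finset.mem_range] at hl
    have hd := hDz l hl
    set d := Z2.Dz (xq σ) (wq n σ) (2 * n) l with hdd
    set x : ℝ := Real.log C1 + CS + (K1 + 21) * Real.log n + kq N l * n with hx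
    have hx0 : 0 ≤ x := by
      rw [hx]
      have h1 : 0 ≤ Real.log C1 := Real.log_nonneg hC1
      have h2 : 0 ≤ ((K1 : ℝ) + 21) * Real.log n := by positivity
      have h3 : 0 ≤ kq N l * n := mul_nonneg (kq_nonneg N l) hn0.le
      linarith
    have h1 : Real.log (A 0 ^ 2) ≤ Real.log d + x := by
      have := hS l hl
      rw [hx]
      linarith
    have h2 : A 0 ^ 2 ≤ d * Real.exp x := by
      rw [← Real.log_le_log_iff (by positivity) (by positivity), Real.log_mul hd.ne' (Real.exp_pos x).ne',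
        Real.log_exp]
      exact h1
    have h3 : d + 16 * (64 * A 0 ^ 2) ≤ d * (1025 * Real.exp x) := by
      have h4 : 1 ≤ Real.exp x := Real.one_le_exp hx0
      nlinarith
    have h5 := Real.log_le_log (by positivity) h3
    rw [Real.log_mul hd.ne' (by positivity), Real.log_mul (by norm_num) (Real.exp_pos x).ne', Real.log_exp] at h5
    rw [hx] at h5
    linarith
  have hlog := Real.log_le_log (by positivity) hB
  rw [Real.log_mul hDp.ne' hVp.ne', Real.log_mul, Real.log_mul, Real.log_prod, Real.log_prod] at hlog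
  rotate_left
  · intro j hj
    positivity
  · intro l hl
    have := hDz l (Finset.mem_range.1 hl)
    positivity
  · positivity
  · apply Finset.prod_ne_zero_iff.2
    intro l hl
    have := hDz l (Finset.mem_range.1 hl)
    positivity
  · apply mul_ne_zero (by positivity)
    apply Finset.prod_ne_zero_iff.2
    intro l hl
    have := hDz l (Finset.mem_range.1 hl)
    positivity
  · apply Finset.prod_ne_zero_iff.2
    intro j _
    positivity
  have hz := Finset.sum_le_sum hzone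
  rw [Finset.sum_add_distrib, Finset.sum_add_distrib, Finset.sum_const, Finset.card_range, nsmul_eq_mul,
    ← Finset.sum_mul, sum_kq hn] at hz
  have hDzsum : ∑ l ∈ Finset.range (2 * n), Real.log (Z2.Dz (xq σ) (wq n σ) (2 * n) l) =
      ∑ l ∈ Finset.range (2 * n), Real.log |((wq n σ l : ℚ) : ℝ)| + 2 * Real.log |V| := by
    have e1 : ∀ l ∈ Finset.range (2 * n), Real.log (Z2.Dz (xq σ) (wq n σ) (2 * n) l) =
        Real.log |((wq n σ l : ℚ) : ℝ)| + 2 * Real.log (((Z2.ZE (xq σ) (2 * n) l).eval (xq σ l) : ℚ) : ℝ) := by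
      intro l hl
      rw [Finset.mem_range] at hl
      unfold Z2.Dz
      rw [Real.log_mul (hw l hl).ne' (pow_ne_zero _ (hZE l hl)), Real.log_pow]
      push_cast
      ring
    have e2 : Real.log |V| = ∑ l ∈ Finset.range (2 * n), Real.log (((Z2.ZE (xq σ) (2 * n) l).eval (xq σ l) : ℚ) : ℝ) := by
      rw [← Real.log_prod (fun l hl => hZE l (Finset.mem_range.1 hl)), hV, Real.log_abs]
      push_cast
      rfl
    rw [Finset.sum_congr rfl e1, Finset.sum_add_distrib, ← Finset.mul_sum, e2]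
  have hline : ∑ j ∈ Finset.range (5 * n), Real.log (16 * Real.exp (2 * Real.log (A j))) =
      5 * n * Real.log 16 + ∑ j ∈ Finset.range (5 * n), 2 * Real.log (A j) := by
    have e1 : ∀ j ∈ Finset.range (5 * n), Real.log (16 * Real.exp (2 * Real.log (A j))) =
        Real.log 16 + 2 * Real.log (A j) := by
      intro j _
      rw [Real.log_mul (by norm_num) (Real.exp_pos _).ne', Real.log_exp]
    rw [Finset.sum_congr rfl e1, Finset.sum_add_distrib, Finset.sum_const, Finset.card_range, nsmul_eq_mul]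
    push_cast
    ring
  rw [hDzsum] at hz
  rw [hline] at hlog
  push_cast at hz hlog
  linarith

/-- lower order terms -/
lemma final_ev (c : ℝ) (K : ℕ) (ε : ℝ) (hε : 0 < ε) :
    ∀ᶠ n : ℕ in atTop, (n : ℝ) * (c + K * Real.log n) ≤ ε * (n : ℝ) ^ 2 := by
  have h1 : Tendsto (fun n : ℕ => Real.log (n : ℝ) / n) atTop (𝓝 0) := by
    have := Real.isLittleO_log_id_atTop.tendsto_div_nhds_zero
    exact this.comp tendsto_natCast_atTop_atTop
  have h2 : Tendsto (fun n : ℕ => c / (n : ℝ)) atTop (𝓝 0) := tendsto_const_div_atTop_nhds_zero_nat c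
  have h3 : Tendsto (fun n : ℕ => (c / (n : ℝ) + K * (Real.log (n : ℝ) / n))) atTop (𝓝 0) := by
    have := (h2.add (h1.const_mul (K : ℝ)))
    simpa using this
  have h4 := h3.eventually (gt_mem_nhds hε)
  filter_upwards [h4, eventually_gt_atTop 0] with n hn hn0
  have hn' : (0 : ℝ) < n := by exact_mod_cast hn0
  have e : (n : ℝ) * (c + K * Real.log n) = (c / (n : ℝ) + K * (Real.log (n : ℝ) / n)) * (n : ℝ) ^ 2 := by
    field_simp
  rw [e]
  exact mul_le_mul_of_nonneg_right hn.le (by positivity)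

/-- the archimedean bound, from the line part and the bound for the functional -/
theorem G7_arch_of (σ : ℕ) (hσ : σ = 1 ∨ σ = 3) (u : ℚ)
    (hB2 : ∀ n : ℕ, 1 ≤ n → ∀ Q : ℚ[X], Q.natDegree + 2 ≤ 14 * n → ∀ B : ℝ,
      (∀ y : ℝ, ‖Rn n σ y‖ * ‖aeval (zt n σ y) Q‖ * Real.exp (-(2 * Real.pi * |y|)) ≤ B * (1 + y ^ 2)⁻¹) →
      |((NL n σ u Q - ∑ l ∈ Finset.range (2 * n), wh n σ l * Q.eval (xh σ l) : ℚ) : ℝ)| ≤ 16 * B)
    (hG4 : ∃ (C : ℝ) (K : ℕ), 0 < C ∧ ∀ ε : ℝ, 0 < ε → ∀ᶠ N : ℕ in atTop,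
      ∀ n : ℕ, n = 24 * N + 1 → ∃ (G : ℕ → ℚ[X]) (A : ℕ → ℝ),
      (∀ j < 5 * n, (G j).Monic ∧ (G j).natDegree = j ∧ 0 < A j ∧
        ∀ y : ℝ, WL n σ y * Real.exp (-(2 * Real.pi * |y|)) * ‖aeval (zc n σ y) (G j)‖ ^ 2 ≤
          A j ^ 2 * (1 + y ^ 2)⁻¹) ∧
      A 0 ^ 2 * (n : ℝ) ^ (10 * n) ≤ C * (n : ℝ) ^ K * Real.exp (n * PhiG) ∧
      ∑ j ∈ Finset.range (5 * n), 2 * Real.log (A j) ≤
        -(25 * (n : ℝ) ^ 2 * Real.log n) + (5 * PhiG - 9724 / 576 * Real.log 2 + ε) * (n : ℝ) ^ 2)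
    (hG5 : 5 * PhiG - 9724 / 576 * Real.log 2 ≤ -1573 / 10) :
    ∀ ε : ℝ, 0 < ε → ∀ᶠ N : ℕ in atTop, ∀ n : ℕ, n = 24 * N + 1 → DET n σ u (7 * n) ≠ 0 →
      Real.log |((DET n σ u (7 * n) : ℚ) : ℝ)| ≤
        -49 * (n : ℝ) ^ 2 * Real.log n + (-208 + ε) * (n : ℝ) ^ 2 := by
  intro ε hε
  obtain ⟨C, K, hC, hG⟩ := hG4
  obtain ⟨CS, hS⟩ := Z6_sat
  have hε4 : 0 < ε / 4 := by positivity
  have ht : Tendsto (fun N : ℕ => 24 * N + 1) atTop atTop :=
    tendsto_atTop_mono (fun N => by simp only [id]; omega) tendsto_id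
  -- lower order terms
  set c1 : ℝ := 2 * (Real.log 1025 + |Real.log C| + |CS|) + 5 * Real.log 16 + 34 / 10 + 7 * (Real.log 7) with hc1
  have hev := ht.eventually (final_ev c1 (2 * (K + 21) + 8) (ε / 4) hε4)
  filter_upwards [hG (ε / 4) hε4, Z4_zone (ε / 4) hε4, hev, eventually_ge_atTop 100] with N hGN hZN hevN hN n hn hD
  obtain ⟨G, A, hGA, hA0, hsum⟩ := hGN n hn
  have hZ := hZN n hn σ hσ
  have hS' := hS N hN n hn σ hσ
  rw [← hn] at hevN
  have hn1 : 1 ≤ n := by omega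
  have hn1' : (1 : ℝ) ≤ n := by exact_mod_cast hn1
  have hL : 0 ≤ Real.log n := Real.log_nonneg hn1'
  have hG0 : G 0 = 1 := by
    have h1 := (hGA 0 (by omega)).1
    have h2 := (hGA 0 (by omega)).2.1
    rw [Polynomial.eq_C_of_natDegree_eq_zero h2] at h1 ⊢
    rw [Polynomial.Monic, Polynomial.leadingCoeff_C] at h1
    rw [h1, C_1]
  have hwline : ∀ y : ℝ, ∀ Q : ℚ[X], wtq n σ y * ‖aeval (zt n σ y) (Z2.ZZ (xq σ) (2 * n) * Q)‖ ^ 2 =
      WL n σ y * Real.exp (-(2 * Real.pi * |y|)) * ‖aeval (zc n σ y) Q‖ ^ 2 * (1 + y ^ 2) := by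
    intro y Q
    rw [← WL_eq, map_mul, norm_mul, ← zt_eq]
    unfold wtq
    ring
  have hrow : ∀ j < 5 * n, ∀ y : ℝ, wtq n σ y * ‖aeval (zt n σ y) (Z2.ZZ (xq σ) (2 * n) * G j)‖ ^ 2 ≤ A j ^ 2 := by
    intro j hj y
    rw [hwline]
    have h := (hGA j hj).2.2.2 y
    have hy : (0 : ℝ) < 1 + y ^ 2 := by positivity
    calc WL n σ y * Real.exp (-(2 * Real.pi * |y|)) * ‖aeval (zc n σ y) (G j)‖ ^ 2 * (1 + y ^ 2)
        ≤ (A j ^ 2 * (1 + y ^ 2)⁻¹) * (1 + y ^ 2) := mul_le_mul_of_nonneg_right h hy.le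
      _ = A j ^ 2 := by field_simp
  have hbound := Z2_bound (7 * n) (2 * n) (by omega) (xq σ) (wq n σ)
    (fun i _ j _ hij h => hij (by
      unfold xq at h
      have h' : (i : ℚ) = j := by linarith
      exact_mod_cast h'))
    (NL n σ u) (zt n σ) (wtq n σ) 16 (A 0 ^ 2) (by norm_num) (by positivity)
    (fun Q hQ B hB => by
      have h := hB2 n hn1 Q (by omega) B (fun y => by
        have h := hB y
        unfold wtq at h
        have hy : (0 : ℝ) < 1 + y ^ 2 := by positivity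
        rw [← div_eq_mul_inv, le_div_iff₀ hy]
        calc ‖Rn n σ y‖ * ‖aeval (zt n σ y) Q‖ * Real.exp (-(2 * Real.pi * |y|)) * (1 + y ^ 2)
            = ‖Rn n σ y‖ * Real.exp (-(2 * Real.pi * |y|)) * (1 + y ^ 2) * ‖aeval (zt n σ y) Q‖ := by ring
          _ ≤ B := h)
      have e : ∑ t ∈ Finset.range (2 * n), wq n σ t * Q.eval (xq σ t) =
          ∑ l ∈ Finset.range (2 * n), wh n σ l * Q.eval (xh σ l) := by
        apply Finset.sum_congr rfl
        intro l _
        rw [wh_eq]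
        rfl
      rw [e]
      exact h)
    G (fun j => 2 * Real.log (A j)) (fun j hj => ⟨(hGA j (by omega)).1, (hGA j (by omega)).2.1⟩)
    (wtq_nonneg n σ) (fun l hl y => dist_line hσ l hl y)
    (fun j hj y => by
      have hAj := (hGA j (by omega)).2.2.1
      have e : Real.exp (2 * Real.log (A j)) = A j ^ 2 := by
        rw [← Real.log_rpow hAj, Real.exp_log (by positivity)]
        norm_cast
      rw [e]
      exact hrow j (by omega) y)
    (fun y => by
      have h := hrow 0 (by omega) y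
      rw [hG0, mul_one] at h
      exact h)
  have e57 : 7 * n - 2 * n = 5 * n := by omega
  rw [e57] at hbound
  have hC1 : (1 : ℝ) ≤ max C 1 := le_max_right _ _
  have hcore := core (C1 := max C 1) (K1 := K) (CS := |CS|) hN hn hσ hC1 A (fun j hj => (hGA j hj).2.2.1)
    (hA0.trans (by gcongr; exact le_max_left _ _)) (abs_nonneg CS)
    (fun l hl => (hS' l hl).trans (by
      have := le_abs_self CS
      linarith))
    ((DET n σ u (7 * n) : ℚ) : ℝ) (by exact_mod_cast hD) hbound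
  refine hcore.trans ?_
  have hlC : Real.log (max C 1) ≤ |Real.log C| := by
    rcases le_total C 1 with h | h
    · rw [max_eq_right h, Real.log_one]; exact abs_nonneg _
    · rw [max_eq_left h]; exact le_abs_self _
  have hfac : Real.log ((7 * n).factorial : ℝ) ≤ 7 * n * (Real.log 7 + Real.log n) := by
    have h1 : ((7 * n).factorial : ℝ) ≤ ((7 * n : ℕ) : ℝ) ^ (7 * n) := by
      exact_mod_cast Nat.factorial_le_pow (7 * n)
    have h2 := Real.log_le_log (by positivity) h1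
    rw [Real.log_pow] at h2
    push_cast at h2
    rw [Real.log_mul (by norm_num) (by positivity)] at h2
    exact h2
  have hnr : (n : ℝ) = 24 * N + 1 := by rw [hn]; push_cast; ring
  have hzk : 17 / 10 * (27 * (N : ℝ) + 2) * n ≤ 19125 / 10000 * (n : ℝ) ^ 2 + 34 / 10 * n := by
    have hN0 : (0 : ℝ) ≤ N := by positivity
    have : (N : ℝ) = (n - 1) / 24 := by rw [hnr]; ring
    rw [this]
    nlinarith
  have hZT := ZTq_le
  have hn2 : (0 : ℝ) ≤ (n : ℝ) ^ 2 := by positivity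
  have hkey : Real.log ((7 * n).factorial : ℝ) +
      2 * n * (Real.log 1025 + Real.log (max C 1) + |CS| + (K + 21) * Real.log n) + 34 / 10 * n +
      5 * n * Real.log 16 ≤ ε / 4 * (n : ℝ) ^ 2 := by
    refine le_trans ?_ hevN
    rw [hc1]
    push_cast
    have h1 : 2 * (n : ℝ) * Real.log (max C 1) ≤ 2 * n * |Real.log C| := by
      apply mul_le_mul_of_nonneg_left hlC (by positivity)
    nlinarith [mul_nonneg (by positivity : (0 : ℝ) ≤ n) hL]
  have h1 : ZTq * (n : ℝ) ^ 2 ≤ -527 / 10 * (n : ℝ) ^ 2 := mul_le_mul_of_nonneg_right hZT hn2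
  have h2 : (5 * PhiG - 9724 / 576 * Real.log 2) * (n : ℝ) ^ 2 ≤ -1573 / 10 * (n : ℝ) ^ 2 :=
    mul_le_mul_of_nonneg_right hG5 hn2
  nlinarith

end

end Pool.Agent.H216R2.QZ
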